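import Pool.Agent.MP_5f72fe_nt.H3.SpecC
import Pool.Agent.MP_1246c0_nt.H16.Cusp

/-! Binary cubic forms of negative discriminant in the cusp of the fundamental domain. -/

namespace Pool.Agent.MP_5f72fe_nt.H75

open Pool.Agent.MP_1246c0_nt.H55 Pool.Agent.MP_5f72fe_nt.H3
open Pool.Agent.MP_1246c0_nt.H16 (iv mem_iv card_iv)

theorem act_mkG (p q u v k : ℝ) : act (mkG p q u v) 1 k 0 1 = mkG p q (u - k) v := by
  funext i
  fin_cases i <;> simp [ev, act, mkG] <;> ring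

theorem mkG_inj {p q u v p' q' u' v' : ℝ} (hp : 0 < p) (hv : 0 < v)
    (e : mkG p q u v = mkG p' q' u' v') : u = u' := by
  have hP : ∀ p q u v : ℝ, mkG p q u v 1 ^ 2 - mkG p q u v 0 * mkG p q u v 2 =
      (p ^ 2 + q ^ 2) * v ^ 2 := by
    intro p q u v
    simp only [mkG, Matrix.cons_val_zero, Matrix.cons_val_one, Matrix.cons_val]
    ring
  have hQ : ∀ p q u v : ℝ, mkG p q u v 0 * mkG p q u v 3 - mkG p q u v 1 * mkG p q u v 2 =
      2 * u * ((p ^ 2 + q ^ 2) * v ^ 2) := by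
    intro p q u v
    simp only [mkG, Matrix.cons_val_zero, Matrix.cons_val_one, Matrix.cons_val]
    ring
  have h1 := hP p q u v
  have h2 := hQ p q u v
  rw [e, hP] at h1
  rw [e, hQ, h1] at h2
  have h3 : 0 < (p ^ 2 + q ^ 2) * v ^ 2 := by positivity
  have h4 := mul_right_cancel₀ h3.ne' h2
  linarith

theorem bounds {p q u v A V : ℝ} (hV : 1 ≤ V) (hp : 0 ≤ p) (hA : p ≤ A) (hq : |q| ≤ A)
    (hu : |u| ≤ 3 * V) (hv : 0 ≤ v) (hv' : v ≤ 2 * V) (i : Fin 4) :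
    |mkG p q u v i| ≤ ![A, 5 * A * V, 25 * A * V ^ 2, 125 * A * V ^ 3] i := by
  have hA0 : 0 ≤ A := hp.trans hA
  have hV0 : 0 ≤ V := by linarith
  have hp' : |p| ≤ A := by rwa [abs_of_nonneg hp]
  have hv2 : |v| ≤ 2 * V := by rwa [abs_of_nonneg hv]
  have m : ∀ x y a b : ℝ, |x| ≤ a → |y| ≤ b → |x * y| ≤ a * b := fun x y a b h k => by
    rw [abs_mul]
    exact mul_le_mul h k (abs_nonneg _) ((abs_nonneg _).trans h)
  have pu := m _ _ _ _ hp' hu
  have qv := m _ _ _ _ hq hv2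
  have puu := m _ _ _ _ pu hu
  have pvv := m _ _ _ _ (m _ _ _ _ hp' hv2) hv2
  have qvu := m _ _ _ _ qv hu
  have puuu := m _ _ _ _ puu hu
  have pvvu := m _ _ _ _ pvv hu
  have qvuu := m _ _ _ _ qvu hu
  have qvvv := m _ _ _ _ (m _ _ _ _ qv hv2) hv2
  rw [abs_le] at pu qv puu pvv qvu puuu pvvu qvuu qvvv
  fin_cases i
  · simpa [mkG, abs_of_nonneg hp] using hA
  · change |q * v - p * u| ≤ 5 * A * V
    rw [abs_le]
    constructor <;> linarith [pu.1, pu.2, qv.1, qv.2]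
  · change |p * (u ^ 2 - v ^ 2) - 2 * q * u * v| ≤ 25 * A * V ^ 2
    rw [abs_le]
    constructor <;> linarith [puu.1, puu.2, pvv.1, pvv.2, qvu.1, qvu.2]
  · change |q * (3 * u ^ 2 * v - v ^ 3) - p * (u ^ 3 - 3 * u * v ^ 2)| ≤ 125 * A * V ^ 3
    rw [abs_le]
    constructor <;>
      linarith [puuu.1, puuu.2, pvvu.1, pvvu.2, qvuu.1, qvuu.2, qvvv.1, qvvv.2]

theorem dy (V X : ℝ) (S : Finset (Fm ℤ)) (hV : 1 ≤ V) (hX : 0 < X)
    (hS : ∀ f ∈ S, ((-dsc f : ℤ) : ℝ) ≤ X ∧ ∃ p q u v : ℝ, 1 ≤ p ∧ |u| ≤ 1 / 2 ∧ V ≤ v ∧ v ≤ 2 * V ∧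
      cst ℝ f = mkG p q u v) : S.card * V ≤ 1265625 * X := by
  classical
  rcases S.eq_empty_or_nonempty with rfl | ⟨f0, hf0⟩
  · simp only [Finset.card_empty, Nat.cast_zero, zero_mul]
    positivity
  have hV0 : 0 < V := by linarith
  obtain ⟨A, hA0, hA⟩ : ∃ A : ℝ, 0 ≤ A ∧ A ^ 4 * V ^ 6 = X := by
    refine ⟨√(√(X / V ^ 6)), Real.sqrt_nonneg _, ?_⟩
    rw [show 4 = 2 * 2 from rfl, pow_mul, Real.sq_sqrt (Real.sqrt_nonneg _),
      Real.sq_sqrt (by positivity)]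
    field_simp
  have key : ∀ f ∈ S, ∃ p q u v : ℝ, 1 ≤ p ∧ |u| ≤ 1 / 2 ∧ V ≤ v ∧ v ≤ 2 * V ∧
      cst ℝ f = mkG p q u v ∧ p ≤ A ∧ |q| ≤ A := by
    intro f hf
    obtain ⟨hd, p, q, u, v, h1, h2, h3, h4, h5⟩ := hS f hf
    have e := dsc_mkG p q u v
    rw [← h5, dsc_cst] at e
    have hv2 : V ^ 6 ≤ v ^ 6 := pow_le_pow_left₀ hV0.le h3 6
    have hN : p ^ 2 + q ^ 2 ≤ A ^ 2 := by
      refine (pow_le_pow_iff_left₀ (by positivity) (by positivity) two_ne_zero).1 ?_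
      refine le_of_mul_le_mul_left ?_ (pow_pos hV0 6)
      have h6 := mul_le_mul_of_nonneg_right hv2 (sq_nonneg (p ^ 2 + q ^ 2))
      have h7 : 0 ≤ v ^ 6 * (p ^ 2 + q ^ 2) ^ 2 := by positivity
      rw [show V ^ 6 * (A ^ 2) ^ 2 = A ^ 4 * V ^ 6 by ring, hA]
      push_cast at hd
      linarith
    refine ⟨p, q, u, v, h1, h2, h3, h4, h5, ?_, ?_⟩
    · refine (pow_le_pow_iff_left₀ (by linarith) hA0 two_ne_zero).1 ?_
      linarith [sq_nonneg q]
    · refine abs_le_of_sq_le_sq' ?_ hA0 |> abs_le.2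
      linarith [sq_nonneg p]
  have hA1 : 1 ≤ A := by
    obtain ⟨p, q, u, v, h1, -, -, -, -, h6, -⟩ := key f0 hf0
    exact h1.trans h6
  have tr : ∀ (f : Fm ℤ) (j : ℕ) (p q u v : ℝ), cst ℝ f = mkG p q u v →
      cst ℝ (act f 1 (2 * j) 0 1) = mkG p q (u - 2 * j) v := by
    intro f j p q u v e
    rw [cst_act, e, ← act_mkG]
    push_cast
    rfl
  have hc : (S ×ˢ Finset.range ⌈V⌉₊).card ≤ (Fintype.piFinset fun i : Fin 4 =>
      iv (![A, 5 * A * V, 25 * A * V ^ 2, 125 * A * V ^ 3] i)).card := by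
    refine Finset.card_le_card_of_injOn (fun x => act x.1 1 (2 * x.2) 0 1) ?_ ?_
    · rintro ⟨f, j⟩ hx
      obtain ⟨hf, hj⟩ := Finset.mem_product.1 (Finset.mem_coe.1 hx)
      obtain ⟨p, q, u, v, h1, h2, h3, h4, h5, h6, h7⟩ := key f hf
      have hj' : (j : ℝ) < V := Nat.lt_ceil.1 (Finset.mem_range.1 hj)
      have hj0 : (0 : ℝ) ≤ j := Nat.cast_nonneg j
      refine Finset.mem_coe.2 (Fintype.mem_piFinset.2 fun i => mem_iv ?_)
      have := bounds (p := p) (q := q) (u := u - 2 * j) (v := v) hV (by linarith) h6 h7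
        (by rw [abs_le] at h2 ⊢; constructor <;> linarith [h2.1, h2.2]) (by linarith) h4 i
      rwa [← tr f j p q u v h5] at this
    · rintro ⟨f, j⟩ hx ⟨g, k⟩ hy e
      obtain ⟨p, q, u, v, h1, h2, h3, h4, h5, -, -⟩ :=
        key f (Finset.mem_product.1 (Finset.mem_coe.1 hx)).1
      obtain ⟨p', q', u', v', k1, k2, k3, k4, k5, -, -⟩ :=
        key g (Finset.mem_product.1 (Finset.mem_coe.1 hy)).1
      have e' : act f 1 (2 * j) 0 1 = act g 1 (2 * k) 0 1 := e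
      have e2 := mkG_inj (by linarith) (by linarith)
        ((tr f j p q u v h5).symm.trans ((congrArg (cst ℝ) e').trans (tr g k p' q' u' v' k5)))
      rw [abs_le] at h2 k2
      have l1 : (j : ℝ) < k + 1 := by linarith [h2.1, h2.2, k2.1, k2.2]
      have l2 : (k : ℝ) < j + 1 := by linarith [h2.1, h2.2, k2.1, k2.2]
      have l3 : j < k + 1 := by exact_mod_cast l1
      have l4 : k < j + 1 := by exact_mod_cast l2
      obtain rfl : j = k := by omega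
      have e3 := congrArg (fun h => act h 1 (-(2 * j : ℤ)) 0 1) e'
      simp only [act_act, mul_zero, mul_one, add_zero, zero_add, one_mul, zero_mul,
        neg_add_cancel, act_one] at e3
      rw [e3]
  rw [Finset.card_product, Finset.card_range, Fintype.card_piFinset] at hc
  have hc' : (S.card : ℝ) * ⌈V⌉₊ ≤ ∏ i : Fin 4,
      ((iv (![A, 5 * A * V, 25 * A * V ^ 2, 125 * A * V ^ 3] i)).card : ℝ) := by exact_mod_cast hc
  have b1 : 1 ≤ A * V := one_le_mul_of_one_le_of_one_le hA1 hV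
  have b2 : 1 ≤ A * V ^ 2 := one_le_mul_of_one_le_of_one_le hA1 (one_le_pow₀ hV)
  have b3 : 1 ≤ A * V ^ 3 := one_le_mul_of_one_le_of_one_le hA1 (one_le_pow₀ hV)
  calc (S.card : ℝ) * V ≤ S.card * ⌈V⌉₊ :=
        mul_le_mul_of_nonneg_left (Nat.le_ceil V) (Nat.cast_nonneg _)
    _ ≤ _ := hc'
    _ ≤ ∏ i : Fin 4, 3 * ![A, 5 * A * V, 25 * A * V ^ 2, 125 * A * V ^ 3] i := by
        refine Finset.prod_le_prod (fun _ _ => Nat.cast_nonneg _) fun i _ => card_iv ?_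
        fin_cases i
        · exact hA1
        · change 1 ≤ 5 * A * V
          linarith
        · change 1 ≤ 25 * A * V ^ 2
          linarith
        · change 1 ≤ 125 * A * V ^ 3
          linarith
    _ = 1265625 * (A ^ 4 * V ^ 6) := by
        simp only [Fin.prod_univ_four, Matrix.cons_val_zero, Matrix.cons_val_one, Matrix.cons_val]
        ring
    _ = _ := by rw [hA]

theorem rowCUSPN : RowCUSPN := by
  classical
  refine ⟨2 * 1265625, fun T X S hT hX hS => ?_⟩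
  have hT0 : 0 < T := by linarith
  have h : ∀ f ∈ S, ∃ i : ℕ, ((-dsc f : ℤ) : ℝ) ≤ X ∧ ∃ p q u v : ℝ, 1 ≤ p ∧ |u| ≤ 1 / 2 ∧
      2 ^ i * T ≤ v ∧ v ≤ 2 * (2 ^ i * T) ∧ cst ℝ f = mkG p q u v := by
    intro f hf
    obtain ⟨hd, p, q, u, v, h1, h2, h3, h4⟩ := hS f hf
    obtain ⟨i, k1, k2⟩ := exists_nat_pow_near ((one_le_div hT0).2 h3) (one_lt_two (α := ℝ))
    rw [le_div_iff₀ hT0] at k1
    rw [div_lt_iff₀ hT0, pow_succ] at k2
    exact ⟨i, hd, p, q, u, v, h1, h2, k1, by linarith, h4⟩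
  choose! i hi using h
  have h1 : ∀ k : ℕ, ((S.filter fun f => i f = k).card : ℝ) * T ≤ 1265625 * X * (1 / 2) ^ k := by
    intro k
    have := dy (2 ^ k * T) X (S.filter fun f => i f = k)
      (one_le_mul_of_one_le_of_one_le (one_le_pow₀ one_le_two) hT) hX fun f hf => by
        obtain ⟨a, b⟩ := Finset.mem_filter.1 hf
        rw [← b]
        exact hi f a
    rw [one_div, inv_pow, ← div_eq_mul_inv, le_div_iff₀ (by positivity)]
    linarith
  have hs : √T ≤ T := by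
    rw [Real.sqrt_le_iff]
    exact ⟨hT0.le, by nlinarith⟩
  refine (mul_le_mul_of_nonneg_left hs (Nat.cast_nonneg _)).trans ?_
  rw [Finset.card_eq_sum_card_image i S]
  push_cast
  rw [Finset.sum_mul]
  refine (Finset.sum_le_sum fun k _ => h1 k).trans ?_
  rw [← Finset.mul_sum]
  have h2 := sum_le_hasSum (S.image i) (fun k _ => by positivity) hasSum_geometric_two
  nlinarith

end Pool.Agent.MP_5f72fe_nt.H75
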