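import Pool.Agent.MP_5f72fe_nt.H3.SpecB

/-! Elementary properties of the genus character. -/

namespace Pool.Agent.MP_5f72fe_nt.H75

open Pool.Agent.MP_5f72fe_nt.H3
open scoped NumberTheorySymbols

theorem J_congr {p : ℕ} {a b : ℤ} (h : (p : ℤ) ∣ a - b) : J(a | p) = J(b | p) :=
  jacobiSym.mod_left' (Int.ModEq.eq (Int.modEq_iff_dvd.2 (by simpa using h.neg_right)))

theorem chiP_congr {p : ℕ} {a b c a' b' c' : ℤ} (ha : (p : ℤ) ∣ a - a') (hb : (p : ℤ) ∣ b - b')
    (hc : (p : ℤ) ∣ c - c') : chiP p a b c = chiP p a' b' c' := by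
  have h1 : (p : ℤ) ∣ (b ^ 2 - 4 * a * c) - (b' ^ 2 - 4 * a' * c') := by
    have : (b ^ 2 - 4 * a * c) - (b' ^ 2 - 4 * a' * c') =
        (b - b') * (b + b') - 4 * ((a - a') * c + a' * (c - c')) := by ring
    rw [this]
    exact (hb.mul_right _).sub (((ha.mul_right _).add (hc.mul_left _)).mul_left _)
  unfold chiP
  rw [J_congr ha, J_congr hc]
  simp only [dvd_iff_dvd_of_dvd_sub h1, dvd_iff_dvd_of_dvd_sub ha]

theorem J_zero {p : ℕ} (hp : p.Prime) {a : ℤ} (h : (p : ℤ) ∣ a) : J(a | p) = 0 := by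
  rw [J_congr (b := 0) (by simpa using h)]
  exact jacobiSym.zero_left hp.one_lt

theorem J_sq {p : ℕ} (hp : p.Prime) {a : ℤ} (h : ¬ (p : ℤ) ∣ a) : J(a | p) ^ 2 = 1 := by
  refine jacobiSym.sq_one ?_
  exact Int.isCoprime_iff_gcd_eq_one.1
    ((Nat.prime_iff_prime_int.1 hp).irreducible.coprime_iff_not_dvd.2 h).symm

theorem J_eq {p : ℕ} (hp : p.Prime) (ho : Odd p) {a b c : ℤ} (hd : (p : ℤ) ∣ b ^ 2 - 4 * a * c)
    (ha : ¬ (p : ℤ) ∣ a) (hc : ¬ (p : ℤ) ∣ c) : J(a | p) = J(c | p) := by
  have hP := Nat.prime_iff_prime_int.1 hp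
  have h2 : ¬ (p : ℤ) ∣ 2 := by
    intro h
    have h3 : p ∣ 2 := by exact_mod_cast h
    have := (Nat.prime_dvd_prime_iff_eq hp Nat.prime_two).1 h3
    subst this
    exact absurd ho (by decide)
  have hb : ¬ (p : ℤ) ∣ b := by
    intro h
    have h3 : (p : ℤ) ∣ 2 * (2 * (a * c)) := by
      have := (dvd_iff_dvd_of_dvd_sub hd).1 (h.pow two_ne_zero)
      rwa [show 4 * a * c = 2 * (2 * (a * c)) by ring] at this
    rcases hP.dvd_or_dvd (((hP.dvd_or_dvd ((hP.dvd_or_dvd h3).resolve_left h2))).resolve_left h2)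
      with h | h
    · exact ha h
    · exact hc h
  have e := J_congr hd
  rw [jacobiSym.pow_left, J_sq hp hb, show 4 * a * c = 2 ^ 2 * (a * c) by ring,
    jacobiSym.mul_left, jacobiSym.pow_left, J_sq hp h2, one_mul, jacobiSym.mul_left] at e
  have e2 := J_sq hp hc
  linear_combination (-J(a | p)) * e2 - J(c | p) * e

theorem prod_J {N : ℕ} (hN : Squarefree N) (c : ℤ) :
    ∏ p ∈ N.primeFactors, J(c | p) = J(c | N) := by
  have key : ∀ s : Finset ℕ, (∀ p ∈ s, p ≠ 0) → ∏ p ∈ s, J(c | p) = J(c | ∏ p ∈ s, p) := by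
    intro s
    induction s using Finset.induction_on with
    | empty => simp
    | insert p s hp ih =>
      intro h
      rw [Finset.prod_insert hp, Finset.prod_insert hp,
        jacobiSym.mul_right' c (h p (Finset.mem_insert_self _ _))
          (Finset.prod_ne_zero_iff.2 fun q hq => h q (Finset.mem_insert_of_mem hq)),
        ih fun q hq => h q (Finset.mem_insert_of_mem hq)]
  rw [key _ fun p hp => (Nat.prime_of_mem_primeFactors hp).ne_zero,
    Nat.prod_primeFactors_of_squarefree hN]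

theorem dvd_of_all {N : ℕ} (hN : Squarefree N) {z : ℤ}
    (h : ∀ p ∈ N.primeFactors, (p : ℤ) ∣ z) : (N : ℤ) ∣ z := by
  rw [Int.natCast_dvd, ← Nat.prod_primeFactors_of_squarefree hN]
  exact Finset.prod_primes_dvd _ (fun p hp => (Nat.prime_of_mem_primeFactors hp).prime)
    fun p hp => Int.natCast_dvd.1 (h p hp)

theorem rowCHI : RowCHI where
  tr N a b c t _ := by
    refine Finset.prod_congr rfl fun p hp => ?_
    have hP := Nat.prime_iff_prime_int.1 (Nat.prime_of_mem_primeFactors hp)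
    unfold chiP
    rw [show (b + 2 * a * t) ^ 2 - 4 * a * (a * t ^ 2 + b * t + c) = b ^ 2 - 4 * a * c by ring]
    split_ifs with h1 h2
    · have hb : (p : ℤ) ∣ b := hP.dvd_of_dvd_pow
        ((dvd_iff_dvd_of_dvd_sub h1).2 ((h2.mul_left 4).mul_right c))
      refine J_congr ?_
      rw [add_sub_cancel_right]
      exact (h2.mul_right _).add (hb.mul_right _)
    · rfl
    · rfl
  sw N a b c hN := by
    refine Finset.prod_congr rfl fun p hp => ?_
    have hP := Nat.prime_of_mem_primeFactors hp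
    have ho : Odd p := hN.of_dvd_nat (Nat.dvd_of_mem_primeFactors hp)
    unfold chiP
    rw [show (-b) ^ 2 - 4 * c * a = b ^ 2 - 4 * a * c by ring]
    split_ifs with h1 h2 h3 h3
    · rw [J_zero hP h2, J_zero hP h3]
    · rfl
    · rfl
    · exact (J_eq hP ho h1 h3 h2).symm
    · rfl
  ev N a b c := by simp only [chi, chiP, neg_sq]
  neg N a b c hN hs := by
    have h1 : J(-1 | N) = if N % 4 = 1 then 1 else -1 := by
      rw [jacobiSym.at_neg_one hN]
      split_ifs with h
      · exact ZMod.χ₄_nat_one_mod_four h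
      · refine ZMod.χ₄_nat_three_mod_four ?_
        have := Nat.odd_iff.1 hN
        omega
    rw [← h1, ← prod_J hs, chi, chi, ← Finset.prod_mul_distrib]
    refine Finset.prod_congr rfl fun p _ => ?_
    unfold chiP
    rw [show (-b) ^ 2 - 4 * -a * -c = b ^ 2 - 4 * a * c by ring, neg_eq_neg_one_mul c,
      jacobiSym.mul_left]
    simp only [dvd_neg]
    rw [neg_eq_neg_one_mul a, jacobiSym.mul_left]
    split_ifs <;> simp
  zero N b c _ hs := by
    unfold chi chiP
    simp only [mul_zero, zero_mul, sub_zero, dvd_zero, if_true]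
    split_ifs with h
    · rw [← prod_J hs]
      refine Finset.prod_congr rfl fun p hp => if_pos ?_
      exact ((Int.natCast_dvd_natCast.2 (Nat.dvd_of_mem_primeFactors hp)).trans h).pow two_ne_zero
    · by_contra h0
      refine h (dvd_of_all hs fun p hp => ?_)
      have hP := Nat.prime_iff_prime_int.1 (Nat.prime_of_mem_primeFactors hp)
      by_contra hb
      exact h0 (Finset.prod_eq_zero hp (if_neg fun h2 => hb (hP.dvd_of_dvd_pow h2)))
  per N a b c x y z := by
    refine Finset.prod_congr rfl fun p hp => ?_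
    have h : (p : ℤ) ∣ N := Int.natCast_dvd_natCast.2 (Nat.dvd_of_mem_primeFactors hp)
    refine chiP_congr ?_ ?_ ?_ <;> rw [add_sub_cancel_left] <;> exact h.mul_right _
  abs N a b c := by
    rw [chi, Finset.abs_prod]
    refine Finset.prod_le_one (fun _ _ => abs_nonneg _) fun p _ => ?_
    have h : ∀ x : ℤ, |J(x | p)| ≤ 1 := fun x => by
      rcases jacobiSym.trichotomy x p with h | h | h <;> simp [h]
    unfold chiP
    split_ifs
    · exact h _
    · exact h _
    · simp
  sup N a b c hs h := by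
    refine dvd_of_all hs fun p hp => ?_
    by_contra hb
    exact h (Finset.prod_eq_zero hp (if_neg hb))

end Pool.Agent.MP_5f72fe_nt.H75
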